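import Pool.Agent.TH141.PC.Vosper

/-!
# The sum-free threshold of `Z_p`, `p ≡ 2 (mod 3)`

`p + 1 - T(Z_p, {2,1})` is the least size `s` of a set `B ⊆ Z_p` which meets every dilate of the
middle third `{(p+1)/3, ..., (2p-1)/3}` (the sum-free sets of size `(p+1)/3` are these dilates, by
Cauchy-Davenport and Vosper).

* Lower bound `2p - 1 ≤ 3^s`: a packing argument, by induction on the elements of `B`.
* Upper bound: modulo `q = (3^t+1)/2` the `t` multipliers `1, 3, ..., 3^{t-1}` move every nonzero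
  residue to the middle third. If the nonzero `d` which are not yet moved there are of the form
  `g e` with `|e| < p/N` and `3q ≤ 2N`, then the `t` multipliers `g⁻¹ c_i`, `c_i` the integer
  nearest to `3^i p / q`, deal with all `e` which are not multiples of `q`. Thus `t` further
  elements replace `N` by `N q`, and `t` can be doubled in each step, so that only
  `O(log log p)` steps are needed, each of which wastes a factor `2`.
-/

set_option autoImplicit false

namespace Pool.Agent.Results.MP_eec16c_co.LogThreshold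

open Finset Pool.Agent.TH141.PC
open scoped Pointwise

/-- `A ⊆ Z_p` is sum-free: there are no `x, y, z ∈ A`, not necessarily distinct, with
`x + y = z`. -/
def SumFree {p : ℕ} (A : Finset (ZMod p)) : Prop :=
  ∀ x ∈ A, ∀ y ∈ A, ∀ z ∈ A, x + y ≠ z

/-- `μ(Z_p, {2,1}, A)`: the largest size of a sum-free subset of `A`. -/
noncomputable def muSet {p : ℕ} (A : Finset (ZMod p)) : ℕ :=
  sSup {n : ℕ | ∃ S : Finset (ZMod p), S ⊆ A ∧ SumFree S ∧ S.card = n}

/-- `μ(Z_p, {2,1}, m)`: the minimum of `μ(Z_p, {2,1}, A)` over the `m`-element sets `A`. -/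
noncomputable def muMin (p m : ℕ) : ℕ :=
  sInf {n : ℕ | ∃ A : Finset (ZMod p), A.card = m ∧ muSet A = n}

/-- `T(Z_p, {2,1})`: the smallest `m` with `1 ≤ m ≤ p` and
`μ(Z_p, {2,1}, m) = μ(Z_p, {2,1})`. -/
noncomputable def T (p : ℕ) [NeZero p] : ℕ :=
  sInf {m : ℕ | 1 ≤ m ∧ m ≤ p ∧ muMin p m = muSet (univ : Finset (ZMod p))}

/-! ### Sum-free sets of size `(p+1)/3` -/

/-- the middle third of `Z_p` -/
def Mid {p : ℕ} (x : ZMod p) : Prop := p ≤ 3 * x.val ∧ 3 * x.val ≤ 2 * p

section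

variable {p k : ℕ} [hp : Fact p.Prime]

omit hp in
lemma mid_iff (hk : p = 3 * k + 2) (x : ZMod p) : Mid x ↔ k + 1 ≤ x.val ∧ x.val ≤ 2 * k + 1 := by
  unfold Mid
  omega

lemma val_add_cases (x y : ZMod p) :
    ((x + y).val = x.val + y.val ∧ x.val + y.val < p) ∨
      ((x + y).val + p = x.val + y.val) := by
  rw [ZMod.val_add]
  have h1 := ZMod.val_lt x
  have h2 := ZMod.val_lt y
  rcases lt_or_ge (x.val + y.val) p with h | h
  · exact Or.inl ⟨Nat.mod_eq_of_lt h, h⟩
  · right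
    rw [Nat.mod_eq_sub_mod h, Nat.mod_eq_of_lt (by omega)]
    omega

lemma mem_I_mid (hk : p = 3 * k + 2) (y : ZMod p) :
    y ∈ I ((k + 1 : ℕ) : ZMod p) (k + 1) ↔ Mid y := by
  rw [mem_I, mid_iff hk]
  constructor
  · rintro ⟨i, hi, rfl⟩
    rw [← Nat.cast_add, ZMod.val_natCast_of_lt (by omega)]
    omega
  · rintro ⟨h1, h2⟩
    refine ⟨y.val - (k + 1), by omega, ?_⟩
    rw [← Nat.cast_add]
    have : k + 1 + (y.val - (k + 1)) = y.val := by omega
    rw [this, ZMod.natCast_zmod_val]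

lemma sumFree_mid (hk : p = 3 * k + 2) (g : ZMod p) (S : Finset (ZMod p))
    (hS : ∀ x ∈ S, Mid (g * x)) : SumFree S := by
  intro x hx y hy z hz h
  have h1 := (mid_iff hk _).1 (hS x hx)
  have h2 := (mid_iff hk _).1 (hS y hy)
  have h3 := (mid_iff hk _).1 (hS z hz)
  have h4 : g * z = g * x + g * y := by rw [← h]; ring
  rw [h4] at h3
  rcases val_add_cases (g * x) (g * y) with h5 | h5 <;> omega

lemma card_midSet (hk : p = 3 * k + 2) {g : ZMod p} (hg : g ≠ 0) :
    ∃ S : Finset (ZMod p), (∀ x, x ∈ S ↔ Mid (g * x)) ∧ S.card = k + 1 := by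
  refine ⟨(I ((k + 1 : ℕ) : ZMod p) (k + 1)).image (fun y => g⁻¹ * y), fun x => ?_, ?_⟩
  · rw [mem_image]
    constructor
    · rintro ⟨y, hy, rfl⟩
      rw [← mul_assoc, mul_inv_cancel₀ hg, one_mul]
      exact (mem_I_mid hk y).1 hy
    · intro h
      refine ⟨g * x, (mem_I_mid hk _).2 h, ?_⟩
      rw [← mul_assoc, inv_mul_cancel₀ hg, one_mul]
  · rw [card_image_of_injective _ (mul_right_injective₀ (inv_ne_zero hg)), card_I (by omega)]

lemma card_add_of_sumFree {S : Finset (ZMod p)} (hS : SumFree S) :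
    (S + S).card + S.card ≤ p := by
  have h1 : Disjoint (S + S) S := by
    rw [Finset.disjoint_left]
    intro z hz hz'
    obtain ⟨x, hx, y, hy, rfl⟩ := mem_add.1 hz
    exact hS x hx y hy _ hz' rfl
  rw [← card_union_of_disjoint h1]
  refine (card_le_univ _).trans ?_
  rw [ZMod.card]

lemma card_le_of_sumFree (hk : p = 3 * k + 2) {S : Finset (ZMod p)} (hS : SumFree S) :
    S.card ≤ k + 1 := by
  rcases S.eq_empty_or_nonempty with h | h
  · simp [h]
  have h1 := ZMod.cauchy_davenport hp.out h h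
  have h2 := card_add_of_sumFree hS
  have h3 := h.card_pos
  rcases min_le_iff.1 h1 with h4 | h4 <;> omega

/-- the sum-free sets of size `(p+1)/3` are the dilates of the middle third -/
lemma eq_mid_of_sumFree (hk : p = 3 * k + 2) (hk1 : 1 ≤ k) {S : Finset (ZMod p)}
    (hS : SumFree S) (hc : S.card = k + 1) : ∃ g : ZMod p, g ≠ 0 ∧ ∀ x, x ∈ S ↔ Mid (g * x) := by
  have hne : S.Nonempty := card_pos.1 (by omega)
  have h1 := ZMod.cauchy_davenport hp.out hne hne
  have h2 := card_add_of_sumFree hS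
  have h3 : (S + S).card = 2 * k + 1 := by
    rcases min_le_iff.1 h1 with h4 | h4 <;> omega
  obtain ⟨g, hg, -⟩ := vosper (A := S) (B := S) (by omega) (by omega)
    (fun b _ b' _ hbb => (sub_ne_zero.2 hbb).isUnit) (by omega) (by omega)
  obtain ⟨x, l, hl⟩ := hg
  have hg0 : (g : ZMod p) ≠ 0 := g.ne_zero
  have hcard : (I x l).card = k + 1 := by
    rw [← hl, card_image_of_injective _ (mul_right_injective₀ hg0), hc]
  have hlk : l = k + 1 := by
    rcases le_or_gt l p with h | h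
    · rw [card_I h] at hcard
      exact hcard
    · rw [I_univ h.le, card_univ, ZMod.card] at hcard
      omega
  subst hlk
  have hmem : ∀ y, y ∈ I x (k + 1) → ∃ s ∈ S, (g : ZMod p) * s = y := by
    intro y hy
    rw [← hl, mem_image] at hy
    exact hy
  have hfree : ∀ i < k + 1, ∀ j < k + 1, ∀ l < k + 1,
      (x + (i : ZMod p)) + (x + (j : ZMod p)) ≠ x + (l : ZMod p) := by
    intro i hi j hj l hl h
    obtain ⟨s1, hs1, e1⟩ := hmem _ (mem_I.2 ⟨i, hi, rfl⟩)
    obtain ⟨s2, hs2, e2⟩ := hmem _ (mem_I.2 ⟨j, hj, rfl⟩)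
    obtain ⟨s3, hs3, e3⟩ := hmem _ (mem_I.2 ⟨l, hl, rfl⟩)
    rw [← e1, ← e2, ← e3, ← mul_add] at h
    exact hS s1 hs1 s2 hs2 s3 hs3 (mul_left_cancel₀ hg0 h)
  have hx : x.val = k + 1 := by
    have hxlt := ZMod.val_lt x
    rcases lt_trichotomy x.val (k + 1) with h | h | h
    · exfalso
      refine hfree 0 (by omega) 0 (by omega) x.val h ?_
      rw [ZMod.natCast_zmod_val]
      simp
    · exact h
    · exfalso
      have h5 : ∃ i j, i < k + 1 ∧ j < k + 1 ∧ i + j = p - x.val :=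
        ⟨min k (p - x.val), p - x.val - min k (p - x.val), by omega, by omega, by omega⟩
      obtain ⟨i, j, hi, hj, hij⟩ := h5
      refine hfree i hi j hj 0 (by omega) ?_
      have h6 : x + ((i : ZMod p) + (j : ZMod p)) = 0 := by
        rw [← Nat.cast_add, hij]
        nth_rw 1 [← ZMod.natCast_zmod_val x]
        rw [← Nat.cast_add, Nat.add_sub_cancel' hxlt.le, ZMod.natCast_self]
      calc x + (i : ZMod p) + (x + (j : ZMod p)) = x + (x + ((i : ZMod p) + (j : ZMod p))) := by ring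
        _ = x + ((0 : ℕ) : ZMod p) := by rw [h6, Nat.cast_zero]
  have hx' : x = ((k + 1 : ℕ) : ZMod p) := by rw [← hx, ZMod.natCast_zmod_val]
  refine ⟨g, hg0, fun s => ?_⟩
  rw [← mem_I_mid hk, ← hx', ← hl, mem_image]
  constructor
  · intro hs
    exact ⟨s, hs, rfl⟩
  · rintro ⟨s', hs', e⟩
    rwa [← mul_left_cancel₀ hg0 e]

/-! ### `T` and the sets which meet all dilates of the middle third -/

/-- `B` meets every dilate of the middle third -/
def Hits (B : Finset (ZMod p)) : Prop := ∀ d : ZMod p, d ≠ 0 → ∃ b ∈ B, Mid (d * b)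

lemma muSet_le (hk : p = 3 * k + 2) (A : Finset (ZMod p)) : muSet A ≤ k + 1 := by
  refine csSup_le' ?_
  rintro n ⟨S, -, hS, rfl⟩
  exact card_le_of_sumFree hk hS

lemma bddAbove_muSet (hk : p = 3 * k + 2) (A : Finset (ZMod p)) :
    BddAbove {n : ℕ | ∃ S : Finset (ZMod p), S ⊆ A ∧ SumFree S ∧ S.card = n} := by
  refine ⟨k + 1, ?_⟩
  rintro n ⟨S, -, hS, rfl⟩
  exact card_le_of_sumFree hk hS

lemma muSet_eq_iff (hk : p = 3 * k + 2) (hk1 : 1 ≤ k) (A : Finset (ZMod p)) :
    muSet A = k + 1 ↔ ¬ Hits Aᶜ := by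
  constructor
  · intro h hh
    have hne : {n : ℕ | ∃ S : Finset (ZMod p), S ⊆ A ∧ SumFree S ∧ S.card = n}.Nonempty :=
      ⟨0, ∅, empty_subset _, fun x hx => absurd hx (notMem_empty x), rfl⟩
    have h1 := Nat.sSup_mem hne (bddAbove_muSet hk A)
    obtain ⟨S, hSA, hS, hc⟩ := h1
    obtain ⟨g, hg, hgS⟩ := eq_mid_of_sumFree hk hk1 hS (hc.trans h)
    obtain ⟨b, hb, hb'⟩ := hh g hg
    exact (mem_compl.1 hb) (hSA ((hgS b).2 hb'))
  · intro h
    refine le_antisymm (muSet_le hk A) ?_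
    unfold Hits at h
    push Not at h
    obtain ⟨g, hg, hg'⟩ := h
    obtain ⟨S, hS, hc⟩ := card_midSet hk hg
    refine le_csSup (bddAbove_muSet hk A) ⟨S, fun x hx => ?_,
      sumFree_mid hk g S (fun x hx => (hS x).1 hx), hc⟩
    by_contra hx'
    exact hg' x (mem_compl.2 hx') ((hS x).1 hx)

lemma muSet_univ (hk : p = 3 * k + 2) (hk1 : 1 ≤ k) :
    muSet (univ : Finset (ZMod p)) = k + 1 := by
  rw [muSet_eq_iff hk hk1]
  intro h
  obtain ⟨b, hb, -⟩ := h 1 one_ne_zero
  simp at hb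

lemma T_mem (hk : p = 3 * k + 2) (hk1 : 1 ≤ k) :
    1 ≤ T p ∧ T p ≤ p ∧ muMin p (T p) = k + 1 := by
  have hne : {m : ℕ | 1 ≤ m ∧ m ≤ p ∧ muMin p m = muSet (univ : Finset (ZMod p))}.Nonempty := by
    refine ⟨p, by omega, le_rfl, ?_⟩
    have h1 : {n : ℕ | ∃ A : Finset (ZMod p), A.card = p ∧ muSet A = n} =
        {muSet (univ : Finset (ZMod p))} := by
      ext n
      simp only [Set.mem_ofPred_eq, Set.mem_singleton_iff]
      constructor
      · rintro ⟨A, hA, rfl⟩
        rw [(card_eq_iff_eq_univ A).1 (by rw [hA, ZMod.card])]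
      · rintro rfl
        exact ⟨univ, by rw [card_univ, ZMod.card], rfl⟩
    rw [muMin, h1, csInf_singleton]
  have h := Nat.sInf_mem hne
  obtain ⟨h1, h2, h3⟩ := h
  exact ⟨h1, h2, h3.trans (muSet_univ hk hk1)⟩

/-- a set which meets all dilates of the middle third bounds `T` from below -/
lemma le_T_add (hk : p = 3 * k + 2) (hk1 : 1 ≤ k) {B : Finset (ZMod p)} (hB : Hits B) :
    p + 1 ≤ T p + B.card := by
  by_contra hcon
  obtain ⟨h1, h2, h3⟩ := T_mem (p := p) hk hk1
  have h4 : T p ≤ Bᶜ.card := by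
    rw [card_compl, ZMod.card]
    omega
  obtain ⟨A, hA, hAc⟩ := exists_subset_card_eq h4
  have h5 : muSet A ≠ k + 1 := by
    rw [Ne, muSet_eq_iff hk hk1, not_not]
    intro d hd
    obtain ⟨b, hb, hb'⟩ := hB d hd
    exact ⟨b, mem_compl.2 fun hbA => (mem_compl.1 (hA hbA)) hb, hb'⟩
  have h6 : muMin p (T p) ≤ muSet A := Nat.sInf_le ⟨A, hAc, rfl⟩
  have h7 := muSet_le hk A
  omega

/-- a smallest set which meets all dilates of the middle third determines `T` -/
lemma exists_T_add (hk : p = 3 * k + 2) (hk1 : 1 ≤ k) :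
    ∃ B : Finset (ZMod p), Hits B ∧ T p + B.card = p + 1 := by
  obtain ⟨h1, h2, h3⟩ := T_mem (p := p) hk hk1
  have hT : T p ≠ 1 := by
    intro h
    rw [h] at h3
    have h4 : muMin p 1 ≤ muSet ({0} : Finset (ZMod p)) := Nat.sInf_le ⟨{0}, by simp, rfl⟩
    have h5 : muSet ({0} : Finset (ZMod p)) ≤ 0 := by
      refine csSup_le' ?_
      rintro n ⟨S, hS, hS', rfl⟩
      rw [Nat.le_zero, card_eq_zero]
      refine eq_empty_of_forall_notMem fun x hx => ?_
      have hx0 : x = 0 := by simpa using hS hx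
      exact hS' x hx x hx x hx (by rw [hx0, add_zero])
    omega
  have h4 : muMin p (T p - 1) ≠ k + 1 := by
    intro h
    have h5 : T p ≤ T p - 1 := Nat.sInf_le ⟨by omega, by omega, h.trans (muSet_univ hk hk1).symm⟩
    omega
  have hne : {n : ℕ | ∃ A : Finset (ZMod p), A.card = T p - 1 ∧ muSet A = n}.Nonempty := by
    obtain ⟨A, -, hA⟩ := exists_subset_card_eq
      (show T p - 1 ≤ (univ : Finset (ZMod p)).card by rw [card_univ, ZMod.card]; omega)
    exact ⟨_, A, hA, rfl⟩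
  obtain ⟨A, hA, hA'⟩ := Nat.sInf_mem hne
  refine ⟨Aᶜ, ?_, ?_⟩
  · by_contra hh
    exact h4 (hA'.symm.trans ((muSet_eq_iff hk hk1 A).2 hh))
  · rw [card_compl, ZMod.card, hA]
    omega

/-! ### The packing bound -/

lemma card_shift (hk : p = 3 * k + 2) (c : ZMod p) :
    (univ.filter fun v : ZMod p => (c - v).val ≤ k).card = k + 1 := by
  have h : (univ.filter fun v : ZMod p => (c - v).val ≤ k) =
      (range (k + 1)).image (fun i : ℕ => c - (i : ZMod p)) := by
    ext v
    simp only [mem_filter, mem_univ, true_and, mem_image, mem_range]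
    constructor
    · intro h
      refine ⟨(c - v).val, by omega, ?_⟩
      rw [ZMod.natCast_zmod_val]
      ring
    · rintro ⟨i, hi, rfl⟩
      have : c - (c - (i : ZMod p)) = (i : ZMod p) := by ring
      rw [this, ZMod.val_natCast_of_lt (by omega)]
      omega
  rw [h, card_image_of_injOn, card_range]
  intro i hi j hj hij
  simp only [coe_range, Set.mem_Iio] at hi hj
  have h1 : (i : ZMod p) = (j : ZMod p) := by
    have h2 : c - (i : ZMod p) = c - (j : ZMod p) := hij
    have h3 := congrArg (fun t => c - t) h2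
    simpa using h3
  have h2 := congrArg ZMod.val h1
  rwa [ZMod.val_natCast_of_lt (by omega), ZMod.val_natCast_of_lt (by omega)] at h2

lemma packing (hk : p = 3 * k + 2) (B : Finset (ZMod p)) :
    ∀ S : Finset (ZMod p), (∀ d ∈ S, ∀ d' ∈ S, d ≠ d' → ∃ b ∈ B, Mid ((d - d') * b)) →
      2 * S.card ≤ 3 ^ B.card + 1 := by
  induction B using Finset.induction with
  | empty =>
    intro S hS
    have h1 : S.card ≤ 1 := by
      rw [card_le_one]
      intro d hd d' hd'
      by_contra hne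
      obtain ⟨b, hb, -⟩ := hS d hd d' hd' hne
      exact absurd hb (notMem_empty b)
    simp only [card_empty, pow_zero]
    omega
  | insert b B hbB ih =>
    intro S hS
    rw [card_insert_of_notMem hbB]
    have h1 : ∀ v : ZMod p,
        2 * (S.filter fun d => (d * b - v).val ≤ k).card ≤ 3 ^ B.card + 1 := by
      intro v
      refine ih _ fun d hd d' hd' hne => ?_
      rw [mem_filter] at hd hd'
      obtain ⟨b', hb', hm⟩ := hS d hd.1 d' hd'.1 hne
      rcases mem_insert.1 hb' with rfl | hb'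
      · exfalso
        rw [mid_iff hk] at hm
        have h2 : (d * b' - v) = (d' * b' - v) + (d - d') * b' := by ring
        have h3 := hd.2
        rw [h2] at h3
        have h4 := hd'.2
        rcases val_add_cases (d' * b' - v) ((d - d') * b') with h5 | h5 <;> omega
      · exact ⟨b', hb', hm⟩
    have h2 : ∑ v : ZMod p, (S.filter fun d => (d * b - v).val ≤ k).card =
        S.card * (k + 1) := by
      have h3 : ∀ v : ZMod p, (S.filter fun d => (d * b - v).val ≤ k).card =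
          ∑ d ∈ S, if (d * b - v).val ≤ k then 1 else 0 := fun v => card_filter _ _
      simp_rw [h3]
      rw [sum_comm]
      have h4 : ∀ d ∈ S, (∑ v : ZMod p, if (d * b - v).val ≤ k then 1 else 0) = k + 1 := by
        intro d _
        rw [← card_filter, card_shift hk]
      rw [sum_congr rfl h4, sum_const, smul_eq_mul]
    have h3 : 2 * (S.card * (k + 1)) ≤ p * (3 ^ B.card + 1) := by
      rw [← h2, mul_sum]
      refine (sum_le_sum fun v _ => h1 v).trans ?_
      rw [sum_const, card_univ, ZMod.card, smul_eq_mul]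
    have h4 : 3 ^ (B.card + 1) = 3 * 3 ^ B.card := by ring
    have h5 : (3 ^ B.card) % 2 = 1 := by
      rw [Nat.pow_mod]
      norm_num
    rw [h4]
    set q := 3 ^ B.card with hq
    by_contra hcon
    have h6 : 3 * q + 3 ≤ 2 * S.card := by omega
    have h7 : (3 * q + 3) * (k + 1) ≤ 2 * S.card * (k + 1) := Nat.mul_le_mul_right _ h6
    have h8 : p * (q + 1) = (3 * k + 2) * (q + 1) := congrArg (fun z => z * (q + 1)) hk
    rw [h8] at h3
    nlinarith

lemma hits_card (hk : p = 3 * k + 2) {B : Finset (ZMod p)} (hB : Hits B) :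
    2 * p ≤ 3 ^ B.card + 1 := by
  have h := packing hk B univ fun d _ d' _ hne => hB (d - d') (sub_ne_zero.2 hne)
  rwa [card_univ, ZMod.card] at h

end

/-! ### The moduli `(3^t + 1)/2` -/

lemma isCoprime_three_pow {t : ℕ} {q : ℤ} (hq : 2 * q = 3 ^ t + 1) {i : ℕ} (hi : i ≤ t) :
    IsCoprime q (3 ^ i) := by
  refine ⟨2, -(3 ^ (t - i)), ?_⟩
  have h : (3 : ℤ) ^ t = 3 ^ (t - i) * 3 ^ i := by
    rw [← pow_add]
    congr 1
    omega
  rw [hq, h]
  ring

/-- modulo `q = (3^t + 1)/2`, the powers `1, 3, ..., 3^{t-1}` move every nonzero residue to the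
middle third -/
lemma perfect {t : ℕ} {q : ℤ} (hq : 2 * q = 3 ^ t + 1) (e : ℤ) (he : ¬ q ∣ e) :
    ∃ i < t, ∃ m r : ℤ, 3 ^ i * e = q * m + r ∧ q + 1 ≤ 3 * r ∧ 3 * r + 1 ≤ 2 * q := by
  by_contra hcon
  push Not at hcon
  have ht : 0 < t := by
    rcases Nat.eq_zero_or_pos t with h | h
    · subst h
      rw [pow_zero] at hq
      have : q = 1 := by omega
      exact absurd (this ▸ one_dvd e) he
    · exact h
  obtain ⟨l, hl, hl0⟩ : ∃ l : ℤ, q = 3 * l + 2 ∧ 0 ≤ l := by
    obtain ⟨u, rfl⟩ : ∃ u, t = u + 1 := ⟨t - 1, by omega⟩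
    rw [pow_succ] at hq
    have h1 : (1 : ℤ) ≤ 3 ^ u := one_le_pow₀ (by norm_num)
    exact ⟨q / 3, by omega, by omega⟩
  have hnd : ∀ i ≤ t, ¬ q ∣ 3 ^ i * e := fun i hi h =>
    he ((isCoprime_three_pow hq hi).dvd_of_dvd_mul_left h)
  have hex : ∀ i < t, ∃ x : ℤ, -l ≤ x ∧ x ≤ l ∧ q ∣ 3 ^ i * e - x := by
    intro i hi
    have h1 := Int.emod_nonneg (3 ^ i * e) (show q ≠ 0 by omega)
    have h2 := Int.emod_lt_of_pos (3 ^ i * e) (show 0 < q by omega)
    have h3 := Int.mul_ediv_add_emod (3 ^ i * e) q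
    have h4 := hcon i hi (3 ^ i * e / q) (3 ^ i * e % q) h3.symm
    by_cases h5 : 3 ^ i * e % q ≤ l
    · refine ⟨3 ^ i * e % q, by omega, h5, 3 ^ i * e / q, ?_⟩
      linarith
    · refine ⟨3 ^ i * e % q - q, by omega, by omega, 3 ^ i * e / q + 1, ?_⟩
      rw [mul_add, mul_one]
      linarith
  obtain ⟨x0, hx1, hx2, hx3⟩ := hex 0 ht
  rw [pow_zero, one_mul] at hx3
  have key : ∀ i ≤ t, ∀ y : ℤ, -l ≤ y → y ≤ l → q ∣ 3 ^ i * e - y →
      ∃ E : ℤ, 3 ^ i * x0 - y = q * E ∧ (E % 2 = 0 ↔ (0 < y ↔ 0 < x0)) := by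
    intro i
    induction i with
    | zero =>
      intro _ y hy1 hy2 hy3
      rw [pow_zero, one_mul] at hy3 ⊢
      obtain ⟨c, hc⟩ : q ∣ x0 - y := by
        have := dvd_sub hy3 hx3
        have e1 : e - y - (e - x0) = x0 - y := by ring
        rwa [e1] at this
      have hc1 : c < 1 := by
        by_contra hh
        push Not at hh
        have : q * 1 ≤ q * c := mul_le_mul_of_nonneg_left hh (by omega)
        omega
      have hc2 : -1 < c := by
        by_contra hh
        push Not at hh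
        have : q * c ≤ q * (-1) := mul_le_mul_of_nonneg_left hh (by omega)
        omega
      have hc3 : c = 0 := by omega
      subst hc3
      rw [mul_zero] at hc
      refine ⟨0, by rw [mul_zero]; exact hc, ?_⟩
      have : x0 = y := by omega
      subst this
      simp
    | succ i ih =>
      intro hi y hy1 hy2 hy3
      obtain ⟨x, hxa, hxb, hxc⟩ := hex i (by omega)
      obtain ⟨E, hE1, hE2⟩ := ih (by omega) x hxa hxb hxc
      have hx0 : x ≠ 0 := by
        rintro rfl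
        rw [sub_zero] at hxc
        exact hnd i (by omega) hxc
      have hy0 : y ≠ 0 := by
        rintro rfl
        rw [sub_zero] at hy3
        exact hnd (i + 1) hi hy3
      obtain ⟨c, hc⟩ : q ∣ 3 * x - y := by
        have h1 := dvd_sub hy3 (Dvd.dvd.mul_left hxc 3)
        have e1 : 3 ^ (i + 1) * e - y - 3 * (3 ^ i * e - x) = 3 * x - y := by ring
        rwa [e1] at h1
      have hc1 : c < 2 := by
        by_contra hh
        push Not at hh
        have : q * 2 ≤ q * c := mul_le_mul_of_nonneg_left hh (by omega)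
        omega
      have hc2 : -2 < c := by
        by_contra hh
        push Not at hh
        have : q * c ≤ q * (-2) := mul_le_mul_of_nonneg_left hh (by omega)
        omega
      refine ⟨3 * E + c, ?_, ?_⟩
      · rw [mul_add, ← hc, pow_succ]
        linarith
      · have h8 : c = -1 ∨ c = 0 ∨ c = 1 := by omega
        rcases h8 with rfl | rfl | rfl
        · have e2 : 3 * x - y = -q := by rw [hc]; ring
          clear hc hex hnd ih hcon hE1 hxc hy3 hx3
          constructor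
          · intro h
            constructor <;> intro <;> omega
          · intro h
            omega
        · have e2 : 3 * x - y = 0 := by rw [hc]; ring
          clear hc hex hnd ih hcon hE1 hxc hy3 hx3
          constructor
          · intro h
            constructor <;> intro <;> omega
          · intro h
            omega
        · have e2 : 3 * x - y = q := by rw [hc]; ring
          clear hc hex hnd ih hcon hE1 hxc hy3 hx3
          constructor
          · intro h
            constructor <;> intro <;> omega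
          · intro h
            omega
  obtain ⟨E, hE1, hE2⟩ := key t le_rfl (-x0) (by omega) (by omega) (by
    have h1 : (3 : ℤ) ^ t = 2 * q - 1 := by omega
    rw [h1]
    obtain ⟨c, hc⟩ := hx3
    refine ⟨2 * e - c, ?_⟩
    have : q * (2 * e - c) = 2 * q * e - q * c := by ring
    rw [this, ← hc]
    ring)
  have h1 : q * (2 * x0) = q * E := by
    rw [← hE1]
    have h2 : (3 : ℤ) ^ t = 2 * q - 1 := by omega
    rw [h2]
    ring
  have h2 : 2 * x0 = E := mul_left_cancel₀ (show q ≠ 0 by omega) h1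
  have h3 : x0 ≠ 0 := by
    rintro rfl
    rw [sub_zero] at hx3
    exact he hx3
  have h4 : E % 2 = 0 := by omega
  have h5 := hE2.1 h4
  omega

section

variable {p k : ℕ} [hp : Fact p.Prime]

/-- multiplying by the integers nearest to `3^i p / q` -/
lemma block_kill {t : ℕ} {q e : ℤ} (hq : 2 * q = 3 ^ t + 1) (he : ¬ q ∣ e)
    (hN : 3 * q * |e| ≤ 2 * p) :
    ∃ i < t, Mid ((((2 * 3 ^ i * p + q) / (2 * q) : ℤ) : ZMod p) * (e : ZMod p)) := by
  obtain ⟨i, hi, m, r, h1, h2, h3⟩ := perfect hq e he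
  refine ⟨i, hi, ?_⟩
  have hq0 : 0 < q := by
    have : (0 : ℤ) < 3 ^ t := by positivity
    omega
  set c : ℤ := (2 * 3 ^ i * p + q) / (2 * q) with hc
  have h4 := Int.mul_ediv_add_emod (2 * 3 ^ i * p + q) (2 * q)
  have h5 := Int.emod_nonneg (2 * 3 ^ i * p + q) (show 2 * q ≠ 0 by omega)
  have h6 := Int.emod_lt_of_pos (2 * 3 ^ i * p + q) (show 0 < 2 * q by omega)
  rw [← hc] at h4
  set rho : ℤ := 2 * (q * c - 3 ^ i * p) with hrho
  have h7 : |rho| ≤ q := by
    rw [abs_le]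
    constructor <;> nlinarith
  set v : ℤ := c * e - p * m with hv
  have h8 : 2 * (q * v) = 2 * (p * r) + rho * e := by
    have h9 : 2 * (q * v) = (2 * (q * c - 3 ^ i * p)) * e + 2 * p * (3 ^ i * e - q * m) := by
      rw [hv]; ring
    rw [h9, h1, hrho]
    ring
  have h9 : |rho * e| ≤ q * |e| := by
    rw [abs_mul]
    exact mul_le_mul_of_nonneg_right h7 (abs_nonneg e)
  have h10 := abs_le.1 h9
  have hp0 : (0 : ℤ) < p := by exact_mod_cast hp.out.pos
  have h11 : (p : ℤ) * (q + 1) ≤ p * (3 * r) := mul_le_mul_of_nonneg_left h2 hp0.le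
  have h12 : (p : ℤ) * (3 * r + 1) ≤ p * (2 * q) := mul_le_mul_of_nonneg_left h3 hp0.le
  have hlow : (p : ℤ) ≤ 3 * v := by
    have : q * (2 * p) ≤ q * (2 * (3 * v)) := by nlinarith
    have := le_of_mul_le_mul_left this hq0
    omega
  have hup : 3 * v ≤ 2 * p := by
    have : q * (2 * (3 * v)) ≤ q * (2 * (2 * p)) := by nlinarith
    have := le_of_mul_le_mul_left this hq0
    omega
  have hval : (((c : ZMod p) * (e : ZMod p)).val : ℤ) = v := by
    rw [← Int.cast_mul, ZMod.val_intCast]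
    have : c * e = v + p * m := by rw [hv]; ring
    rw [this, Int.add_mul_emod_self_left, Int.emod_eq_of_lt (by omega) (by omega)]
  unfold Mid
  omega

/-- `B` leaves only the multiples `g e`, `|e| < p/N`, of a unit `g` -/
def Reduce (p N c : ℕ) : Prop :=
  ∃ B : Finset (ZMod p), B.card ≤ c ∧ ∃ g : ZMod p, g ≠ 0 ∧ ∀ d : ZMod p, d ≠ 0 →
    (∀ b ∈ B, ¬ Mid (d * b)) → ∃ e : ℤ, d = g * (e : ZMod p) ∧ (N : ℤ) * |e| < p

lemma reduce_three (hk : p = 3 * k + 2) : Reduce p 3 1 := by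
  refine ⟨{1}, by simp, 1, one_ne_zero, fun d _ h => ⟨d.valMinAbs, ?_, ?_⟩⟩
  · rw [one_mul, ZMod.coe_valMinAbs]
  · have h1 := h 1 (mem_singleton_self 1)
    rw [mul_one, mid_iff hk] at h1
    have h2 : |d.valMinAbs| ≤ k := by
      have h3 := ZMod.val_lt d
      rw [abs_le, ZMod.valMinAbs_def_pos]
      split_ifs with h4 <;> omega
    push_cast
    omega

lemma Reduce.hits {N c : ℕ} (h : Reduce p N c) (hN : p ≤ N) :
    ∃ B : Finset (ZMod p), Hits B ∧ B.card ≤ c := by
  obtain ⟨B, hB, g, hg, hd⟩ := h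
  refine ⟨B, fun d hd0 => ?_, hB⟩
  by_contra hcon
  push Not at hcon
  obtain ⟨e, he, he'⟩ := hd d hd0 hcon
  have h1 : e ≠ 0 := by
    rintro rfl
    rw [Int.cast_zero, mul_zero] at he
    exact hd0 he
  have h2 : 1 ≤ |e| := Int.one_le_abs h1
  have h3 : (N : ℤ) * 1 ≤ N * |e| := mul_le_mul_of_nonneg_left h2 (by positivity)
  omega

lemma Reduce.step {N c t q : ℕ} (h : Reduce p N c) (hq : 2 * q = 3 ^ t + 1)
    (hqN : 3 * q ≤ 2 * N) : Reduce p (N * q) (c + t) := by
  rcases le_or_gt p N with hpN | hpN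
  · obtain ⟨B, hB, hc⟩ := h.hits hpN
    refine ⟨B, by omega, 1, one_ne_zero, fun d hd hd' => ?_⟩
    obtain ⟨b, hb, hb'⟩ := hB d hd
    exact absurd hb' (hd' b hb)
  obtain ⟨B, hB, g, hg, hd⟩ := h
  have hq1 : 0 < q := by
    have : 0 < 3 ^ t := by positivity
    omega
  have hq0 : (q : ZMod p) ≠ 0 := by
    intro h0
    rw [ZMod.natCast_eq_zero_iff] at h0
    have := Nat.le_of_dvd hq1 h0
    omega
  have hqz : 2 * (q : ℤ) = 3 ^ t + 1 := by exact_mod_cast hq
  refine ⟨B ∪ (range t).image (fun i : ℕ =>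
    g⁻¹ * (((2 * 3 ^ i * p + q) / (2 * q) : ℤ) : ZMod p)), ?_, g * q, mul_ne_zero hg hq0, ?_⟩
  · refine (card_union_le _ _).trans (add_le_add hB (card_image_le.trans ?_))
    rw [card_range]
  · intro d hd0 hd'
    obtain ⟨e, he, he'⟩ := hd d hd0 fun b hb => hd' b (mem_union_left _ hb)
    by_cases hqe : (q : ℤ) ∣ e
    · obtain ⟨e', rfl⟩ := hqe
      refine ⟨e', ?_, ?_⟩
      · rw [he]
        push_cast
        ring
      · rw [abs_mul, Nat.abs_cast, ← mul_assoc] at he'
        push_cast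
        exact he'
    · exfalso
      have h1 : 3 * (q : ℤ) * |e| ≤ 2 * p := by
        have h2 : 3 * (q : ℤ) ≤ 2 * N := by exact_mod_cast hqN
        have h3 : 3 * (q : ℤ) * |e| ≤ 2 * N * |e| := mul_le_mul_of_nonneg_right h2 (abs_nonneg e)
        have h4 : 2 * (N : ℤ) * |e| = 2 * (N * |e|) := by ring
        omega
      obtain ⟨i, hi, hmid⟩ := block_kill (p := p) hqz hqe h1
      refine hd' _ (mem_union_right _ (mem_image_of_mem _ (mem_range.2 hi))) ?_
      have h5 : d * (g⁻¹ * (((2 * 3 ^ i * p + q) / (2 * q) : ℤ) : ZMod p)) =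
          (((2 * 3 ^ i * p + q) / (2 * q) : ℤ) : ZMod p) * (e : ZMod p) := by
        rw [he]
        have : g * (e : ZMod p) * (g⁻¹ * (((2 * 3 ^ i * p + q) / (2 * q) : ℤ) : ZMod p)) =
            (g * g⁻¹) * ((((2 * 3 ^ i * p + q) / (2 * q) : ℤ) : ZMod p) * (e : ZMod p)) := by ring
        rw [this, mul_inv_cancel₀ hg, one_mul]
      rw [h5]
      exact hmid

/-- the moduli `(3^t+1)/2` as natural numbers -/
lemma exists_q (t : ℕ) : ∃ q : ℕ, 2 * q = 3 ^ t + 1 := by
  have h : (3 ^ t) % 2 = 1 := by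
    rw [Nat.pow_mod]
    norm_num
  exact ⟨(3 ^ t + 1) / 2, by omega⟩

lemma hits_of_perfect (hk : p = 3 * k + 2) {t : ℕ} (ht : 2 * p = 3 ^ t + 1) :
    ∃ B : Finset (ZMod p), Hits B ∧ B.card ≤ t := by
  refine ⟨(range t).image (fun i : ℕ => (3 : ZMod p) ^ i), fun d hd => ?_,
    card_image_le.trans (by rw [card_range])⟩
  have hz : 2 * (p : ℤ) = 3 ^ t + 1 := by exact_mod_cast ht
  have h1 : ¬ (p : ℤ) ∣ (d.val : ℤ) := by
    intro h
    have h2 : p ∣ d.val := by exact_mod_cast h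
    have h3 := ZMod.val_lt d
    have h4 : d.val ≠ 0 := by rwa [Ne, ZMod.val_eq_zero]
    have := Nat.le_of_dvd (by omega) h2
    omega
  obtain ⟨i, hi, m, r, e1, e2, e3⟩ := perfect hz _ h1
  refine ⟨3 ^ i, mem_image_of_mem _ (mem_range.2 hi), ?_⟩
  have h5 : d * 3 ^ i = ((3 ^ i * (d.val : ℤ) : ℤ) : ZMod p) := by
    push_cast
    rw [ZMod.natCast_zmod_val, mul_comm]
  have hval : ((d * 3 ^ i).val : ℤ) = r := by
    rw [h5, ZMod.val_intCast, e1, add_comm, Int.add_mul_emod_self_left,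
      Int.emod_eq_of_lt (by omega) (by omega)]
  unfold Mid
  omega

/-- the stages of the construction -/
lemma stage_zero (hk : p = 3 * k + 2) : Reduce p 12 3 := by
  have h1 : Reduce p (3 * 2) (1 + 1) := (reduce_three hk).step (by norm_num) (by norm_num)
  exact h1.step (t := 1) (q := 2) (by norm_num) (by norm_num)

lemma exists_hits (hk : p = 3 * k + 2) (hk1 : 1 ≤ k) :
    ∃ B : Finset (ZMod p), Hits B ∧ 2 * 3 ^ B.card ≤ 27 * (p * Nat.log 3 p) := by
  have hlog : 1 ≤ Nat.log 3 p := by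
    have := Nat.le_log_of_pow_le (b := 3) (x := 1) (y := p) (by norm_num) (by omega)
    exact this
  rcases le_or_gt p 12 with hp12 | hp12
  · obtain ⟨B, hB, hc⟩ := (stage_zero hk).hits hp12
    refine ⟨B, hB, ?_⟩
    have h1 : 3 ^ B.card ≤ 3 ^ 3 := Nat.pow_le_pow_right (by norm_num) hc
    have h2 : p * 1 ≤ p * Nat.log 3 p := Nat.mul_le_mul_left _ hlog
    omega
  · let P : ℕ → Prop := fun j => ∃ N c, Reduce p N c ∧ 3 ^ (2 ^ j + 1) ≤ N ∧
      4 * 3 ^ c ≤ 9 * (2 ^ j * N) ∧ N < p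
    have hP0 : P 0 := ⟨12, 3, stage_zero hk, by norm_num, by norm_num, hp12⟩
    have hPb : ∀ j, P j → j ≤ p := by
      rintro j ⟨N, c, -, h1, -, h2⟩
      have h3 : j < 2 ^ j := Nat.lt_two_pow_self
      have h4 : 2 ^ j + 1 < 3 ^ (2 ^ j + 1) := Nat.lt_pow_self (by norm_num)
      omega
    obtain ⟨j, hPj, hj⟩ : ∃ j, P j ∧ ¬ P (j + 1) := by
      by_contra hcon
      push Not at hcon
      have : ∀ j, P j := fun j => Nat.rec hP0 (fun j hj => hcon j hj) j
      have := hPb (p + 1) (this (p + 1))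
      omega
    obtain ⟨N, c, hR, hN, hc, hNp⟩ := hPj
    have hex : ∃ t : ℕ, ∃ q : ℕ, 2 * q = 3 ^ t + 1 ∧ p ≤ N * q := by
      obtain ⟨q, hq⟩ := exists_q p
      refine ⟨p, q, hq, ?_⟩
      have h1 : p < 3 ^ p := Nat.lt_pow_self (by norm_num)
      have h3 : 3 ^ 1 ≤ 3 ^ (2 ^ j + 1) := Nat.pow_le_pow_right (by norm_num) (Nat.le_add_left 1 _)
      have h4 : 3 * q ≤ N * q := Nat.mul_le_mul_right _ (by omega)
      omega
    classical
    obtain ⟨q, hq, hpq⟩ := Nat.find_spec hex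
    set t := Nat.find hex with ht
    have hN9 : 9 ≤ N := by
      have h1 : 3 ^ 2 ≤ 3 ^ (2 ^ j + 1) := Nat.pow_le_pow_right (by norm_num) (by
        have : 1 ≤ 2 ^ j := Nat.one_le_two_pow
        omega)
      omega
    have ht1 : 1 ≤ t := by
      rcases Nat.eq_zero_or_pos t with h0 | h0
      · exfalso
        rw [h0, pow_zero] at hq
        have : q = 1 := by omega
        rw [this, mul_one] at hpq
        omega
      · exact h0
    have htle : t ≤ 2 ^ j + 1 := by
      by_contra hcon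
      push Not at hcon
      obtain ⟨q', hq'⟩ := exists_q (2 ^ j + 1)
      have h1 : ¬ (p ≤ N * q') := fun h => Nat.find_min hex (m := 2 ^ j + 1) hcon ⟨q', hq', h⟩
      refine hj ⟨N * q', c + (2 ^ j + 1), hR.step hq' ?_, ?_, ?_, by omega⟩
      · have h3 : 3 ^ 1 ≤ 3 ^ (2 ^ j + 1) :=
          Nat.pow_le_pow_right (by norm_num) (Nat.le_add_left 1 _)
        omega
      · have e1 : 2 ^ (j + 1) + 1 + 1 = (2 ^ j + 1) + (2 ^ j + 1) := by ring
        have e2 : 3 * 3 ^ (2 ^ (j + 1) + 1) = 3 ^ (2 ^ j + 1) * 3 ^ (2 ^ j + 1) := by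
          rw [← pow_add, ← e1, pow_succ 3 (2 ^ (j + 1) + 1)]
          ring
        have h4 : 3 ^ (2 ^ j + 1) * (3 ^ (2 ^ j + 1) + 1) ≤ N * (2 * q') := by
          rw [hq']
          exact Nat.mul_le_mul_right _ hN
        nlinarith
      · have e3 : 4 * 3 ^ (c + (2 ^ j + 1)) = (4 * 3 ^ c) * 3 ^ (2 ^ j + 1) := by
          rw [pow_add]; ring
        have e4 : 9 * (2 ^ (j + 1) * (N * q')) = (9 * (2 ^ j * N)) * (2 * q') := by
          rw [pow_succ]; ring
        rw [e3, e4, hq']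
        exact Nat.mul_le_mul hc (Nat.le_succ _)
    have hqN : 3 * q ≤ 2 * N := by
      have h1 : 3 ^ t ≤ 3 ^ (2 ^ j + 1) := Nat.pow_le_pow_right (by norm_num) htle
      omega
    obtain ⟨B, hB, hBc⟩ := (hR.step hq hqN).hits hpq
    refine ⟨B, hB, ?_⟩
    obtain ⟨u, hu⟩ : ∃ u, t = u + 1 := ⟨t - 1, by omega⟩
    obtain ⟨q', hq'⟩ := exists_q u
    have h1 : ¬ (p ≤ N * q') := fun h =>
      Nat.find_min hex (m := u) (by omega) ⟨q', hq', h⟩
    push Not at h1
    have h2 : N * 3 ^ u < 2 * p := by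
      have : N * (2 * q') < 2 * p := by nlinarith
      rw [hq'] at this
      nlinarith
    have h3 : 3 ^ B.card ≤ 3 ^ (c + t) := Nat.pow_le_pow_right (by norm_num) hBc
    have h4 : 2 ^ j ≤ Nat.log 3 p := by
      have h5 : 2 ^ j + 1 ≤ Nat.log 3 p :=
        Nat.le_log_of_pow_le (by norm_num) (hN.trans hNp.le)
      omega
    have h5 : 4 * 3 ^ (c + t) = 3 * ((4 * 3 ^ c) * 3 ^ u) := by
      rw [hu, pow_add, pow_succ]; ring
    have h6 : (4 * 3 ^ c) * 3 ^ u ≤ 9 * (2 ^ j * N) * 3 ^ u := Nat.mul_le_mul_right _ hc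
    have h7 : 9 * (2 ^ j * N) * 3 ^ u = 9 * 2 ^ j * (N * 3 ^ u) := by ring
    have h8 : 9 * 2 ^ j * (N * 3 ^ u) ≤ 9 * 2 ^ j * (2 * p) := Nat.mul_le_mul_left _ h2.le
    have h9 : 9 * 2 ^ j * (2 * p) = 18 * (p * 2 ^ j) := by ring
    have h10 : p * 2 ^ j ≤ p * Nat.log 3 p := Nat.mul_le_mul_left _ h4
    omega

/-- A smallest set which meets all dilates of the middle third has size `p + 1 - T(Z_p, {2,1})`. -/
lemma exists_min_hits (hk : p = 3 * k + 2) (hk1 : 1 ≤ k) :
    ∃ B : Finset (ZMod p), Hits B ∧ T p + B.card = p + 1 ∧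
      ∀ B' : Finset (ZMod p), Hits B' → B.card ≤ B'.card := by
  obtain ⟨B, hB, hT⟩ := exists_T_add (p := p) hk hk1
  refine ⟨B, hB, hT, fun B' hB' => ?_⟩
  have := le_T_add hk hk1 hB'
  omega

end

/-- **Main theorem.** For every odd prime `p ≡ 2 (mod 3)`, `T(Z_p, {2,1}) = p + 1 - s` with
`2p - 1 ≤ 3^s ≤ (27/2) p ⌊log_3 p⌋`. -/
theorem result (p : ℕ) [Fact p.Prime] (h2 : p ≠ 2) (h3 : p % 3 = 2) :
    ∃ s : ℕ, T p + s = p + 1 ∧ 2 * p ≤ 3 ^ s + 1 ∧ 2 * 3 ^ s ≤ 27 * (p * Nat.log 3 p) := by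
  have hp : p.Prime := Fact.out
  obtain ⟨k, hk⟩ : ∃ k, p = 3 * k + 2 := ⟨p / 3, by omega⟩
  have hk1 : 1 ≤ k := by omega
  obtain ⟨B, hB, hT, hmin⟩ := exists_min_hits (p := p) hk hk1
  refine ⟨B.card, hT, hits_card hk hB, ?_⟩
  obtain ⟨B', hB', hc⟩ := exists_hits (p := p) hk hk1
  have : 3 ^ B.card ≤ 3 ^ B'.card := Nat.pow_le_pow_right (by norm_num) (hmin B' hB')
  omega

end Pool.Agent.Results.MP_eec16c_co.LogThreshold
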