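import Pool.Agent.R354.SF.Bounds

set_option autoImplicit false

namespace Pool.Agent.Results.MP_eec16c_co.LogarithmicGap

open Pool.Agent.R354.SF

/-- `B` meets every dilate `g⁻¹ • {x : p < 3 x < 2 p}` of the middle third of `ZMod p` -/
def Hitting {p : ℕ} (B : Finset (ZMod p)) : Prop :=
  ∀ g : ZMod p, g ≠ 0 → ∃ b ∈ B, p < 3 * (g * b).val ∧ 3 * (g * b).val < 2 * p

lemma mid_val {p : ℕ} [hp : Fact p.Prime] (hp2 : p % 2 = 1) (x : ZMod p) :
    Mid x ↔ (p < 3 * x.val ∧ 3 * x.val < 2 * p) := by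
  have h0 : (x.val : ℤ) = x.valMinAbs ∨ (x.val : ℤ) = x.valMinAbs + p := by
    rw [ZMod.valMinAbs_def_pos]
    split_ifs with h
    · left; rfl
    · right; ring
  have h1 := vma_le x
  have h2 : x.val < p := ZMod.val_lt x
  unfold Mid
  rcases h0 with h0 | h0
  · omega
  · omega

lemma hit_iff {p : ℕ} [hp : Fact p.Prime] (hp2 : p % 2 = 1) (B : Finset (ZMod p)) :
    Hit B ↔ Hitting B := by
  unfold Hit Hitting
  simp only [mid_val hp2]

theorem result (p : ℕ) [hp : Fact p.Prime] (h2 : p ≠ 2) (h3 : p % 3 = 2) :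
    mu (Finset.univ : Finset (ZMod p)) = (p + 1) / 3 ∧
    T p ≤ p ∧
    (∃ B : Finset (ZMod p), Hitting B ∧ T p + B.card = p + 1) ∧
    (∀ B : Finset (ZMod p), Hitting B → p + 1 ≤ T p + B.card) ∧
    2 * p ≤ 3 ^ (p + 1 - T p) + 1 ∧
    3 * 2 ^ (p + 1 - T p) < 4 * p ∧
    (∀ n : ℕ, 2 * p = 3 ^ n + 1 → T p + n = p + 1) := by
  obtain ⟨k, hk⟩ : ∃ k, p = 3 * k + 2 := ⟨p / 3, by omega⟩
  have hk1 : 1 ≤ k := by omega
  have hodd : p % 2 = 1 := by
    rcases hp.out.eq_two_or_odd with h | h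
    · omega
    · exact h
  obtain ⟨hT1, hT2, -⟩ := T_mem (p := p) hk hk1
  obtain ⟨B, hB, hBc⟩ := T_attained (p := p) hk hk1
  refine ⟨?_, hT2, ⟨B, (hit_iff hodd B).1 hB, hBc⟩, ?_, ?_, ?_, ?_⟩
  · rw [mu_univ hk]
    omega
  · intro B' hB'
    exact T_ge hk hk1 ((hit_iff hodd B').2 hB')
  · have h := hit_lower hk hB
    have h4 : p + 1 - T p = B.card := by omega
    rw [h4]
    exact h
  · have ht := Nat.le_pow_clog (b := 2) (by norm_num) (k + 1)
    have ht2 := Nat.pow_pred_clog_lt_self (b := 2) (x := k + 1) (by norm_num) (by omega)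
    set t := Nat.clog 2 (k + 1)
    have h := T_ge hk hk1 (hit_two (p := p) hk t ht)
    have h4 : ((Finset.range (t + 1)).image (fun i : ℕ => (2 : ZMod p) ^ i)).card ≤ t + 1 := by
      have := Finset.card_image_le (s := Finset.range (t + 1))
        (f := fun i : ℕ => (2 : ZMod p) ^ i)
      rwa [Finset.card_range] at this
    have h5 : p + 1 - T p ≤ t + 1 := by omega
    have h6 : 2 ^ (p + 1 - T p) ≤ 2 ^ (t + 1) := Nat.pow_le_pow_right (by norm_num) h5
    have ht1 : 1 ≤ t := by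
      by_contra hcon
      have : t = 0 := by omega
      rw [this] at ht
      simp at ht
      omega
    have h7 : 2 ^ (t + 1) = 4 * 2 ^ t.pred := by
      obtain ⟨s, hs⟩ : ∃ s, t = s + 1 := ⟨t - 1, by omega⟩
      rw [hs, Nat.pred_succ]
      ring
    omega
  · intro n hn
    have h := T_ge hk hk1 (hit_three (p := p) hk hk1 n hn)
    have h4 : ((Finset.range n).image (fun i : ℕ => (3 : ZMod p) ^ i)).card ≤ n := by
      have := Finset.card_image_le (s := Finset.range n)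
        (f := fun i : ℕ => (3 : ZMod p) ^ i)
      rwa [Finset.card_range] at this
    have h5 := hit_lower hk hB
    have h6 : 3 ^ n ≤ 3 ^ B.card := by omega
    have h7 : n ≤ B.card := (Nat.pow_le_pow_iff_right (by norm_num)).1 h6
    omega

end Pool.Agent.Results.MP_eec16c_co.LogarithmicGap
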