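import Pool.Agent.Results.MP_eec16c_co.LogThreshold

/-!
# The sum-free threshold of `Z_p` for the primes `p = (3^t + 1)/2`
-/

set_option autoImplicit false

namespace Pool.Agent.Results.MP_eec16c_co.PerfectPrimes

open Pool.Agent.Results.MP_eec16c_co.LogThreshold

/-- If `p = (3^t + 1)/2` is an odd prime, then `T(Z_p, {2,1}) = p + 1 - t`. -/
theorem result (p t : ℕ) [Fact p.Prime] (h2 : p ≠ 2) (ht : 2 * p = 3 ^ t + 1) :
    p % 3 = 2 ∧ T p + t = p + 1 := by
  have hp : p.Prime := Fact.out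
  have h3 : p % 3 = 2 := by
    rcases Nat.eq_zero_or_pos t with h | h
    · subst h
      have := hp.two_le
      rw [pow_zero] at ht
      omega
    · obtain ⟨u, rfl⟩ : ∃ u, t = u + 1 := ⟨t - 1, by omega⟩
      rw [pow_succ] at ht
      omega
  refine ⟨h3, ?_⟩
  have h5 := hp.two_le
  obtain ⟨k, hk⟩ : ∃ k, p = 3 * k + 2 := ⟨p / 3, by omega⟩
  have hk1 : 1 ≤ k := by omega
  obtain ⟨B, hB, hT, hmin⟩ := exists_min_hits (p := p) hk hk1
  have h4 : B.card ≤ t := by
    obtain ⟨B', hB', hc⟩ := hits_of_perfect (p := p) hk ht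
    exact (hmin _ hB').trans hc
  have h6 : t ≤ B.card := by
    have h := hits_card hk hB
    rw [ht] at h
    exact (Nat.pow_le_pow_iff_right (by norm_num)).1 (Nat.le_of_add_le_add_right h)
  omega

end Pool.Agent.Results.MP_eec16c_co.PerfectPrimes
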